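import Pool.Agent.H260R4.Final

/-!
# MP_0e9457_al, Q1, the Morse subshift

The topological full group of the Morse (Thue-Morse) subshift contains a finitely generated
subgroup of intermediate growth.
-/

namespace Pool.Agent.Results.MP_0e9457_al.MorseIntermediate

open H260R4

theorem result :
    ∃ H : Subgroup (morseShift ≃ₜ morseShift),
      (H : Set (morseShift ≃ₜ morseShift)) ⊆ fullGroup morseT ∧ IntermediateGrowth H :=
  main

end Pool.Agent.Results.MP_0e9457_al.MorseIntermediate
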